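import Mathlib
import Pool.Agent.H.MP_c1c973_an.B

namespace Pool.Agent.Results.MP_c1c973_an.Yes

open Set Filter Topology Pool.Agent.H.MP_c1c973_an

theorem pick (K : ℕ) (r : ℝ) (h : g K ≤ r) : ∃ k ≥ K, g k ≤ 4 * r ∧ 4 * r < g (k + 1) := by
  have hex : ∃ j, 4 * r < g (K + j + 1) := by
    obtain ⟨j, hj⟩ := exists_nat_gt (4 * r)
    refine ⟨j, hj.trans_le ?_⟩
    have := g_ge' (K + j + 1)
    push_cast at this
    have : (0 : ℝ) ≤ K := Nat.cast_nonneg K
    have : (0 : ℝ) ≤ j := Nat.cast_nonneg j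
    linarith
  classical
  refine ⟨K + Nat.find hex, by omega, ?_, Nat.find_spec hex⟩
  rcases h0 : Nat.find hex with _ | j
  · have := g_pos K
    simp only [add_zero]; linarith
  · exact not_lt.1 (Nat.find_min hex (m := j) (by omega))

theorem rho_down {n m : ℕ} {x : X} (h : m ≤ n) (h2 : 2 * rho n x ≤ 3 ^ m) : rho m x = rho n x := by
  obtain ⟨e, hd, e1, -⟩ := rho_spec n x
  rw [e1] at h2 ⊢
  exact rho_eq ((pow_dvd_pow _ h).trans hd) (by exact_mod_cast h2)

theorem mids {x : X} (hx : ∀ e : ℤ, x ≠ e)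
    (h : ∃ᶠ k in atTop, 3 * rho (N (k + 1)) x ≤ g (k + 1)) (K : ℕ) : ∃ k ≥ K, Mid k x := by
  have ht : Tendsto (fun k => N (k + 1)) atTop atTop :=
    N_mono.tendsto_atTop.comp (tendsto_add_atTop_nat 1)
  obtain ⟨k1, h1, h2, h3⟩ := (h.and_eventually ((ht.eventually (rho_unb hx (g K))).and
    (eventually_ge_atTop K))).exists
  by_cases h4 : g k1 ≤ 4 * rho (N (k1 + 1)) x
  · exact ⟨k1, h3, h4, h1⟩
  obtain ⟨k, hk, p1, p2⟩ := pick K _ h2
  have hlt : k ≤ k1 := by
    by_contra hh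
    have : g k1 ≤ g k := pow_le_pow_right₀ (by norm_num) (N_mono.monotone (by omega))
    linarith
  have q := rho_nn (N (k1 + 1)) x
  have e := rho_down (x := x) (N_mono.monotone (by omega : k + 1 ≤ k1 + 1))
    (by change _ ≤ g (k + 1); linarith)
  exact ⟨k, hk, by rw [e]; exact p1, by rw [e]; linarith⟩

theorem either (x : X) (n : ℕ) (hn : 9 ≤ (3 : ℝ) ^ n) :
    3 * rho n x ≤ 3 ^ n ∨ 3 * rho n (c - x) ≤ 3 ^ n := by
  obtain ⟨e, hd, e1, e2⟩ := rho_spec n x
  obtain ⟨κ, h1, h2⟩ := D_c n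
  have hκ : (3 : ℝ) ^ n = 2 * κ + 1 := by exact_mod_cast h1
  have hκ' : (3 : X) ^ n = 2 * κ + 1 := by exact_mod_cast h1
  have e3 : 2 * |(e : ℝ)| + 1 ≤ 3 ^ n := by exact_mod_cast e2
  rw [← rho_neg n (c - x), e1]
  unfold D at hd h2
  rcases le_total 0 (e : ℝ) with he | he
  · have := rho_le (n := n) (x := -(c - x)) (e := e - κ - 1) (by
      unfold D; push_cast
      convert dvd_add (dvd_add hd h2) dvd_rfl using 1
      rw [hκ']; ring)
    push_cast at this
    rw [abs_of_nonneg he] at e3 ⊢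
    rw [abs_of_nonpos (by linarith)] at this
    by_contra h
    push Not at h
    linarith [h.1, h.2]
  · have := rho_le (n := n) (x := -(c - x)) (e := e + κ) (by
      unfold D; push_cast
      convert dvd_add hd h2 using 1
      ring)
    push_cast at this
    rw [abs_of_nonpos he] at e3 ⊢
    rw [abs_of_nonneg (by linarith)] at this
    by_contra h
    push Not at h
    linarith [h.1, h.2]

theorem disc0 : Tendsto (fun n : ℤ => S n 0) cofinite atTop := by
  rw [tendsto_atTop]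
  intro M
  obtain ⟨K, hK⟩ := exists_nat_ge M
  obtain ⟨B, hB⟩ := exists_nat_ge (g K)
  refine (finite_Icc (-(B : ℤ)) B).subset fun n hn => ?_
  by_contra hn2
  apply hn
  have hn3 : (B : ℝ) ≤ |(n : ℝ)| := by
    have : (B : ℤ) ≤ |n| := by
      rw [mem_Icc, ← abs_le] at hn2
      omega
    exact_mod_cast this
  obtain ⟨k, hk, p1, p2⟩ := pick K _ (hB.trans hn3)
  have q := abs_nonneg (n : ℝ)
  have e : rho (N (k + 1)) (0 + n) = |(n : ℝ)| := rho_eq (by simp [D]) (by
    have : 2 * |(n : ℝ)| ≤ 3 ^ N (k + 1) := by change _ ≤ g (k + 1); linarith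
    exact_mod_cast this)
  have h1 := (S_sum n 0).le_tsum k fun j _ => (a_nn _ _ _).trans (f_low j _)
  have h2 := f_low k (0 + n)
  rw [e, a_big _ p1] at h2
  have h3 : 0 ≤ |(n : ℝ)| / ((k + 1) * g k) := by have := g_pos k; positivity
  have h4 : (K : ℝ) ≤ k := by exact_mod_cast hk
  change M ≤ ∑' k, (f k (0 + n) - f k 0)
  linarith

theorem disc (e : ℤ) : Tendsto (fun n : ℤ => S n e) cofinite atTop := by
  have h := (disc0.comp (add_right_injective e).tendsto_cofinite).atTop_add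
    (tendsto_const_nhds (x := -S e 0))
  refine h.congr fun n => ?_
  simp [S_co]

theorem dich (x : X) (t : ℝ) : Dense (range fun n : ℤ => (x + n, t + S n x)) ∨
    ((∃ e : ℤ, x = e ∨ c - x = e) ∧ Tendsto (fun n : ℤ => |t + S n x|) cofinite atTop) := by
  by_cases h1 : ∃ e : ℤ, x = e
  · obtain ⟨e, rfl⟩ := h1
    exact Or.inr ⟨⟨e, Or.inl rfl⟩,
      tendsto_abs_atTop_atTop.comp (tendsto_atTop_add_const_left _ t (disc e))⟩
  by_cases h2 : ∃ e : ℤ, c - x = e
  · obtain ⟨e, he⟩ := h2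
    refine Or.inr ⟨⟨e, Or.inr he⟩, ?_⟩
    have h := tendsto_abs_atTop_atTop.comp (tendsto_atTop_add_const_left _ (-t)
      ((disc e).comp neg_injective.tendsto_cofinite))
    refine h.congr fun n => ?_
    simp only [Function.comp, ← he, S_sym, neg_neg]
    rw [← neg_add, abs_neg]
  push Not at h1 h2
  left
  have hor : ∃ᶠ k in atTop, 3 * rho (N (k + 1)) x ≤ g (k + 1) ∨
      3 * rho (N (k + 1)) (c - x) ≤ g (k + 1) :=
    Frequently.of_forall fun k => either x _ (by
      have := (g4 (k + 1)).1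
      unfold g at this
      linarith)
  rcases frequently_or_distrib.1 hor with h | h
  · exact dense_of (mids h1 h) t
  · have hd := dense_of (mids h2 h) (-t)
    have hs : Function.Surjective fun z : X × ℝ => (c - z.1, -z.2) :=
      fun z => ⟨(c - z.1, -z.2), by simp⟩
    refine (hs.denseRange.dense_image (by fun_prop) hd).mono ?_
    rintro _ ⟨_, ⟨n, rfl⟩, rfl⟩
    refine ⟨-n, ?_⟩
    simp only [S_sym, Prod.mk.injEq]
    push_cast
    constructor <;> ring

theorem result : ∃ (φ : ℤ_[3] → ℝ) (T : Equiv.Perm (ℤ_[3] × ℝ)),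
    (∀ x : ℤ_[3], Dense (range fun n : ℤ => x + n • (1 : ℤ_[3]))) ∧
    Continuous φ ∧
    (∀ x t, T (x, t) = (x + 1, t + φ x)) ∧
    (∃ z, Dense (range fun n : ℤ => (T ^ n) z)) ∧
    (∃ z, Tendsto (fun n : ℤ => |((T ^ n) z).2|) cofinite atTop) ∧
    ∀ z, Dense (range fun n : ℤ => (T ^ n) z) ∨
      Tendsto (fun n : ℤ => |((T ^ n) z).2|) cofinite atTop := by
  let T : Equiv.Perm (X × ℝ) :=
    { toFun := fun z => (z.1 + 1, z.2 + S 1 z.1)
      invFun := fun z => (z.1 - 1, z.2 - S 1 (z.1 - 1))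
      left_inv := fun z => by simp
      right_inv := fun z => by simp }
  have hT : ∀ (n : ℤ) z, (T ^ n) z = (z.1 + n, z.2 + S n z.1) := by
    intro n z
    induction n with
    | zero => simp [S]
    | succ n ih =>
      rw [add_comm, zpow_add, zpow_one, Equiv.Perm.mul_apply, ih, add_comm 1, S_co, Int.cast_add,
        Int.cast_one, ← add_assoc, ← add_assoc]
      rfl
    | pred n ih =>
      rw [sub_eq_add_neg, add_comm, zpow_add, zpow_neg_one, Equiv.Perm.mul_apply, ih,
        Equiv.Perm.inv_def, Equiv.symm_apply_eq]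
      have e := S_co (-1 + -n) 1 z.1
      rw [show (-1 + -n + 1 : ℤ) = -n by ring] at e
      rw [e]
      change _ = (z.1 + (-1 + -n : ℤ) + 1, z.2 + S (-1 + -n) z.1 + S 1 (z.1 + (-1 + -n : ℤ)))
      rw [add_assoc z.2]
      congr 1
      push_cast
      ring
  refine ⟨S 1, T, fun x => ?_, S_cont 1, fun x t => rfl, ⟨(c * c, 0), ?_⟩, ⟨(0, 0), ?_⟩,
    fun z => ?_⟩
  · have := (add_left_surjective x).denseRange.comp (PadicInt.denseRange_intCast (p := 3))
      (by fun_prop)
    simpa [DenseRange, Function.comp_def] using this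
  · simp only [hT]
    refine (dich (c * c) 0).resolve_right ?_
    rintro ⟨⟨e, h⟩, -⟩
    have h4 : ((4 * e : ℤ) : X) = ((1 : ℤ) : X) := by
      push_cast
      rcases h with h | h
      · linear_combination (2 * c + 1) * hc - 4 * h
      · linear_combination (1 - 2 * c) * hc - 4 * h
    have := Int.cast_injective h4
    omega
  · simp only [hT, zero_add]
    exact tendsto_abs_atTop_atTop.comp disc0
  · simp only [hT]
    exact (dich z.1 z.2).imp id And.right

end Pool.Agent.Results.MP_c1c973_an.Yes
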